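import Pool.Agent.Y798.FC.Stm3
import Pool.Agent.Y798.FC.Nat
import Pool.Agent.Y798.FC.Lim
import Pool.Agent.Y798.JL.Fr

/-! Mean values of products of invariant functions on the torus and class functions on a finite
group (job FC-MIX of helper798). -/

set_option autoImplicit false

namespace Pool.Agent.Y794.FC

open MeasureTheory UnitAddTorus Filter Topology NumberField IsDedekindDomain
  Pool.Agent.W540.BE Pool.Agent.TH553.RS Pool.Agent.TH553.ST Pool.Agent.Y798.JL
  Pool.Agent.Y798.FC
open Pool.Agent.Y139.ID (intL)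

section
variable {K : Type} [Field K] [NumberField K] {r : ℕ}

/-- convergence for the orbit sums, with bounded weights, implies convergence for the invariant
functions -/
theorem inv_law {W : Subgroup (Auts (Fin r))} (hW : Finite W)
    {θ : HeightOneSpectrum (𝓞 K) → UnitAddTorus (Fin r)} {u : HeightOneSpectrum (𝓞 K) → ℂ}
    {B D : ℝ} (hB : 0 ≤ B) (hu : ∀ v, ‖u v‖ ≤ B) (L : C(UnitAddTorus (Fin r), ℂ) →ₗ[ℂ] ℂ)
    (hL : ∀ f : C(UnitAddTorus (Fin r), ℂ), ‖L f‖ ≤ D * ‖f‖)
    (h : ∀ μ, Tendsto (mn fun v => orb W μ (θ v) * u v) atTop (𝓝 (L (mFourier μ))))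
    {f : UnitAddTorus (Fin r) → ℂ} (hf : Continuous f)
    (hfW : ∀ w ∈ W, ∀ x, f (act w x) = f x) :
    Tendsto (mn fun v => f (θ v) * u v) atTop (𝓝 ((Nat.card W : ℂ)⁻¹ * L ⟨f, hf⟩)) := by
  let _ : Fintype W := Fintype.ofFinite W
  have hcard : (Nat.card W : ℂ) ≠ 0 := by
    have : Nat.card W ≠ 0 := Nat.card_pos.ne'
    exact_mod_cast this
  have h1 := tendsto_of_fourier (l := atTop)
    (M := fun n : ℕ => ({ toFun := fun f : C(UnitAddTorus (Fin r), ℂ) =>
                            mn (fun v => sym W f (θ v) * u v) n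
                          map_add' := fun f g => by
                            rw [← Pool.Agent.Y798.FC.mn_add]
                            congr 1
                            funext v
                            simp only [sym, ContinuousMap.add_apply, Finset.sum_add_distrib]
                            ring
                          map_smul' := fun a f => by
                            simp only [RingHom.id_apply, smul_eq_mul]
                            rw [← mn_const_mul]
                            congr 1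
                            funext v
                            simp only [sym, ContinuousMap.smul_apply, smul_eq_mul,
                              ← Finset.mul_sum]
                            ring } : C(UnitAddTorus (Fin r), ℂ) →ₗ[ℂ] ℂ))
    L (C := Nat.card W * B) (D := D)
    (Eventually.of_forall fun n f => norm_mn_le (by positivity) (fun v => by
      rw [norm_mul]
      have h2 := sym_norm_le (W := W) f (θ v)
      have h3 : (0 : ℝ) ≤ Nat.card W * ‖f‖ := by positivity
      calc ‖sym W f (θ v)‖ * ‖u v‖ ≤ (Nat.card W * ‖f‖) * B :=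
            mul_le_mul h2 (hu v) (norm_nonneg _) h3
        _ = Nat.card W * B * ‖f‖ := by ring) n)
    hL
    (fun μ => by
      refine (h μ).congr fun n => ?_
      change _ = mn (fun v => sym W (mFourier μ) (θ v) * u v) n
      congr 1
      funext v
      exact congrArg (· * u v) (orb_eq' μ (θ v))) ⟨f, hf⟩
  have h2 : Tendsto (mn fun v => sym W f (θ v) * u v) atTop (𝓝 (L ⟨f, hf⟩)) := h1
  have h4 := h2.const_mul (Nat.card W : ℂ)⁻¹
  refine h4.congr fun n => ?_
  rw [← mn_const_mul]
  congr 1
  funext v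
  rw [sym_inv W hfW, mul_assoc, inv_mul_cancel_left₀ hcard]

/-- **Job FC-MIX.** -/
theorem t : StmMix := by
  intro K _ _ r W hW θ Q _ _ q ρ _ h1 h2 f e hf hfW he
  letI : TopologicalSpace Q := ⊥
  haveI : DiscreteTopology Q := ⟨rfl⟩
  haveI : IsTopologicalGroup Q := inferInstance
  haveI : CompactSpace Q := inferInstance
  letI : MeasurableSpace Q := borel Q
  haveI : BorelSpace Q := ⟨rfl⟩
  set ν : Measure Q := Measure.haarMeasure ⊤ with hν
  haveI hν1 : IsProbabilityMeasure ν := ⟨by
    rw [hν]
    exact Measure.haarMeasure_self⟩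
  haveI : ν.IsHaarMeasure := by
    rw [hν]
    infer_instance
  have e0 : (Nat.card Q : ℂ)⁻¹ * ∑ᶠ x, e x = ∫ x, e x ∂ν := by
    rw [int_unif, Complex.real_smul]
    push_cast
    rfl
  rw [e0]
  -- irreducible characters
  have key : ∀ (n : ℕ) (ψ : Q →* Matrix.unitaryGroup (Fin n) ℂ), Schur ψ →
      Tendsto (mn fun v => f (θ v) * chi ψ (q v)) atTop
        (𝓝 (((Nat.card W : ℂ)⁻¹ * ∫ x, f x ∂ρ) * ∫ x, chi ψ x ∂ν)) := by
    intro n ψ hψ
    by_cases hnt : ∃ g, ψ g ≠ 1
    · rw [int_chi (μ := ν) continuous_of_discreteTopology hψ hnt, mul_zero]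
      have h3 := inv_law (B := (n : ℝ)) (D := 0) hW (Nat.cast_nonneg n)
        (fun v => norm_chi ψ (q v)) 0 (fun f => by simp) (fun μ => by
          simpa using h2 μ n ψ hψ hnt) hf hfW
      simpa using h3
    · have htriv : ∀ g, ψ g = 1 := fun g => by
        by_contra hg
        exact hnt ⟨g, hg⟩
      have hchi : ∀ g, chi ψ g = n := chi_triv' htriv
      have h4 : ∫ x, chi ψ x ∂ν = n := by
        simp only [hchi]
        simp
      rw [h4]
      have h3 := inv_law (B := 1) (D := ρ.real Set.univ) (u := fun _ => 1) hW zero_le_one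
        (fun v => by simp) (intL ρ 1) (fun f => intL_le ρ 1 f (by simp)) (fun μ => by
          rw [intL_apply]
          simp only [ContinuousMap.one_apply, mul_one]
          exact h1 μ) hf hfW
      have h5 : intL ρ 1 ⟨f, hf⟩ = ∫ x, f x ∂ρ := by
        rw [intL_apply]
        simp
      rw [h5] at h3
      have h6 := h3.const_mul (n : ℂ)
      rw [mul_comm (n : ℂ)] at h6
      refine h6.congr fun N => ?_
      rw [← mn_const_mul]
      congr 1
      funext v
      rw [hchi]
      ring
  -- general class functions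
  have key2 : ∀ F : Q → ℂ, Dec F → Tendsto (mn fun v => f (θ v) * F (q v)) atTop
        (𝓝 (((Nat.card W : ℂ)⁻¹ * ∫ x, f x ∂ρ) * ∫ x, F x ∂ν)) := by
    rintro F ⟨J, _, m, ψ, a, h3, h4⟩
    rw [int_dec h3 h4, Finset.mul_sum]
    have h5 : Tendsto (fun N => ∑ j, a j * mn (fun v => f (θ v) * chi (ψ j) (q v)) N) atTop
        (𝓝 (∑ j, a j * (((Nat.card W : ℂ)⁻¹ * ∫ x, f x ∂ρ) * ∫ x, chi (ψ j) x ∂ν))) :=
      tendsto_finsetSum _ fun j _ => (key _ (ψ j) (h3 j).2).const_mul _
    have e1 : (∑ j, ((Nat.card W : ℂ)⁻¹ * ∫ x, f x ∂ρ) * (a j * ∫ x, chi (ψ j) x ∂ν)) =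
        ∑ j, a j * (((Nat.card W : ℂ)⁻¹ * ∫ x, f x ∂ρ) * ∫ x, chi (ψ j) x ∂ν) :=
      Finset.sum_congr rfl fun j _ => by ring
    rw [e1]
    refine h5.congr fun N => ?_
    have e2 : (fun v => f (θ v) * F (q v)) = fun v =>
        ∑ j, a j * (f (θ v) * chi (ψ j) (q v)) := by
      funext v
      rw [h4, Finset.mul_sum]
      exact Finset.sum_congr rfl fun j _ => by ring
    rw [e2, Pool.Agent.TH553.ST.mn_sum]
    exact Finset.sum_congr rfl fun j _ => (mn_mul _ _ _).symm
  obtain ⟨B, hB⟩ := (isCompact_univ (X := UnitAddTorus (Fin r))).exists_bound_of_continuousOn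
    hf.continuousOn
  have hBf : ∀ x, ‖f x‖ ≤ |B| := fun g => (hB g (Set.mem_univ _)).trans (le_abs_self _)
  refine mn_unif fun ε hε => ?_
  set I : ℂ := (Nat.card W : ℂ)⁻¹ * ∫ x, f x ∂ρ with hI
  set C : ℝ := |B| + ‖I‖ + 1 with hC
  have hC0 : 0 < C := by rw [hC]; positivity
  obtain ⟨F, h3, h4⟩ := class_dense (f := e) continuous_of_discreteTopology he
    (ε := ε / C) (by positivity)
  have hb : ∀ x : ℝ, 0 ≤ x → x ≤ C → x * (ε / C) ≤ ε := by
    intro x _ hx
    calc x * (ε / C) ≤ C * (ε / C) := mul_le_mul_of_nonneg_right hx (by positivity)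
      _ = ε := by field_simp
  refine ⟨fun v => f (θ v) * F (q v), I * ∫ x, F x ∂ν, fun v => ?_, ?_, key2 F h3⟩
  · rw [← mul_sub, norm_mul]
    refine (mul_le_mul (hBf _) (h4 _) (norm_nonneg _) (abs_nonneg _)).trans
      (hb _ (abs_nonneg _) ?_)
    rw [hC]
    linarith [norm_nonneg I]
  · rw [← mul_sub, norm_mul, ← integral_sub (intg continuous_of_discreteTopology)
      (intg continuous_of_discreteTopology)]
    have h7 : ‖∫ x, (F x - e x) ∂ν‖ ≤ ε / C := by
      refine (norm_integral_le_integral_norm _).trans ?_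
      have h8 : ∫ x, ‖F x - e x‖ ∂ν ≤ ∫ _, ε / C ∂ν :=
        integral_mono (intg continuous_of_discreteTopology) (integrable_const _) fun x => by
          change ‖F x - e x‖ ≤ ε / C
          rw [norm_sub_rev]
          exact h4 x
      simpa using h8
    refine (mul_le_mul_of_nonneg_left h7 (norm_nonneg _)).trans (hb _ (norm_nonneg _) ?_)
    rw [hC]
    linarith [abs_nonneg B]

end

end Pool.Agent.Y794.FC
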